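import Pool.Agent.H815.QC.Stm2

/-!
# Project QC: the statement A1
-/

set_option autoImplicit false

namespace Pool.Agent.H886.QCA1

open Pool.Agent.H815.QC

section balls

variable {G : Type} [Group G] {X : Set G}

lemma ball_one (n : ℕ) : (1 : G) ∈ ball X n := ⟨[], by simp, by simp, by simp⟩

lemma ball_mono {m n : ℕ} (h : m ≤ n) {g : G} (hg : g ∈ ball X m) : g ∈ ball X n := by
  obtain ⟨l, h1, h2, h3⟩ := hg
  exact ⟨l, h1.trans h, h2, h3⟩

lemma ball_mul {m n : ℕ} {g h : G} (hg : g ∈ ball X m) (hh : h ∈ ball X n) :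
    g * h ∈ ball X (m + n) := by
  obtain ⟨l, h1, h2, h3⟩ := hg
  obtain ⟨l', h1', h2', h3'⟩ := hh
  refine ⟨l ++ l', ?_, ?_, ?_⟩
  · rw [List.length_append]
    omega
  · intro x hx
    rcases List.mem_append.1 hx with hx | hx
    · exact h2 x hx
    · exact h2' x hx
  · rw [List.prod_append, h3, h3']

lemma ball_inv {m : ℕ} {g : G} (hg : g ∈ ball X m) : g⁻¹ ∈ ball X m := by
  obtain ⟨l, h1, h2, h3⟩ := hg
  refine ⟨(l.map fun x => x⁻¹).reverse, ?_, ?_, ?_⟩
  · rw [List.length_reverse, List.length_map]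
    exact h1
  · intro x hx
    obtain ⟨y, hy, rfl⟩ := List.mem_map.1 (List.mem_reverse.1 hx)
    rw [inv_inv]
    exact (h2 y hy).symm
  · rw [← h3, List.prod_inv_reverse]

lemma ball_gen {x : G} (hx : x ∈ X) : x ∈ ball X 1 :=
  ⟨[x], by simp, by simpa using Or.inl hx, by simp⟩

end balls

/-- the involutions -/
def w (i : Fin 3) (ε : Bool) : F2 :=
  if h : i = 0 then 1 else
    if ε then FreeGroup.of (i.pred h) else (FreeGroup.of (i.pred h))⁻¹

lemma w_zero (ε : Bool) : w 0 ε = 1 := by simp [w]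

lemma w_succ (j : Fin 2) (ε : Bool) : w j.succ ε =
    if ε then FreeGroup.of j else (FreeGroup.of j)⁻¹ := by
  have h : j.succ ≠ 0 := Fin.succ_ne_zero j
  rw [w, dif_neg h, Fin.pred_succ]

lemma w_mul (i : Fin 3) (ε : Bool) : w i ε * w i (!ε) = 1 := by
  unfold w
  split_ifs <;> simp_all

lemma w_ball (i : Fin 3) (ε : Bool) : w i ε ∈ ball (Set.range (FreeGroup.of : Fin 2 → F2)) 1 := by
  unfold w
  split_ifs
  · exact ball_one 1
  · exact ball_gen ⟨_, rfl⟩
  · exact ball_inv (ball_gen ⟨_, rfl⟩)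

/-- the action of a generator -/
def tau (i : Fin 3) : Equiv.Perm (F2 × Bool) where
  toFun p := (p.1 * w i p.2, !p.2)
  invFun p := (p.1 * w i p.2, !p.2)
  left_inv := by
    rintro ⟨h, ε⟩
    simp [mul_assoc, w_mul]
  right_inv := by
    rintro ⟨h, ε⟩
    simp [mul_assoc, w_mul]

lemma tau_apply (i : Fin 3) (p : F2 × Bool) : tau i p = (p.1 * w i p.2, !p.2) := rfl

lemma tau_sq (i : Fin 3) : tau i * tau i = 1 := by
  ext1 p
  exact (tau i).left_inv p

lemma tau_inv (i : Fin 3) : (tau i)⁻¹ = tau i := inv_eq_of_mul_eq_one_left (tau_sq i)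

/-- the homomorphism on a group of order two given by an involution -/
def invHom {N : Type} [Group N] (t : N) (h : t * t = 1) : Multiplicative (ZMod 2) →* N :=
  AddMonoidHom.toMultiplicativeLeft (ZMod.lift 2 ⟨zmultiplesHom (Additive N) (Additive.ofMul t), by
    have : (2 : ℤ) • Additive.ofMul t = 0 := by
      rw [two_zsmul]
      exact h
    simpa using this⟩)

lemma invHom_gen {N : Type} [Group N] (t : N) (h : t * t = 1) :
    invHom t h (Multiplicative.ofAdd 1) = t := by
  have h1 : ZMod.lift 2 ⟨zmultiplesHom (Additive N) (Additive.ofMul t), by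
    have : (2 : ℤ) • Additive.ofMul t = 0 := by
      rw [two_zsmul]
      exact h
    simpa using this⟩ ((1 : ℤ) : ZMod 2) = Additive.ofMul t := by
    rw [ZMod.lift_coe]
    simp
  have h2 : ((1 : ℤ) : ZMod 2) = 1 := by simp
  rw [h2] at h1
  exact h1

/-- the action on the pairs -/
def act : G3 →* Equiv.Perm (F2 × Bool) := Monoid.CoprodI.lift fun i => invHom (tau i) (tau_sq i)

lemma act_gen (i : Fin 3) : act (g3 i) = tau i := by
  unfold act g3
  rw [Monoid.CoprodI.lift_of]
  exact invHom_gen _ _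

lemma g3_sq (i : Fin 3) : g3 i * g3 i = 1 := by
  unfold g3
  rw [← map_mul]
  have : (Multiplicative.ofAdd (1 : ZMod 2)) * Multiplicative.ofAdd 1 = 1 := by decide
  rw [this, map_one]

lemma g3_inv (i : Fin 3) : (g3 i)⁻¹ = g3 i := inv_eq_of_mul_eq_one_left (g3_sq i)

/-- the pair of an element -/
def Th (g : G3) : F2 × Bool := act g⁻¹ (1, false)

lemma Th_one : Th 1 = (1, false) := by simp [Th]

lemma Th_mul (g : G3) (i : Fin 3) : Th (g * g3 i) = ((Th g).1 * w i (Th g).2, !(Th g).2) := by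
  unfold Th
  rw [mul_inv_rev, map_mul, Equiv.Perm.mul_apply, g3_inv, act_gen, tau_apply]

/-- the embedding of the free group -/
def phi : F2 →* G3 := FreeGroup.lift fun j => g3 0 * g3 j.succ

lemma phi_of (j : Fin 2) : phi (FreeGroup.of j) = g3 0 * g3 j.succ := FreeGroup.lift_apply_of

/-- the element of a pair -/
def Ps (p : F2 × Bool) : G3 := phi p.1 * (if p.2 then g3 0 else 1)

lemma Ps_tau (p : F2 × Bool) (i : Fin 3) : Ps (p.1 * w i p.2, !p.2) = Ps p * g3 i := by
  obtain ⟨h, ε⟩ := p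
  unfold Ps
  simp only
  rcases Fin.eq_zero_or_eq_succ i with rfl | ⟨j, rfl⟩
  · rw [w_zero, mul_one, mul_assoc]
    cases ε
    · simp
    · simp [g3_sq]
  · rw [w_succ, map_mul, mul_assoc, mul_assoc]
    cases ε
    · simp only [Bool.false_eq_true, if_false, Bool.not_false, if_true, map_inv, phi_of, mul_inv_rev,
        g3_inv, one_mul]
      rw [mul_assoc, g3_sq, mul_one]
    · simp [phi_of]

lemma Ps_Th_mul (k g : G3) : Ps (Th (k * g)) = Ps (Th k) * g := by
  induction g using Monoid.CoprodI.induction_left generalizing k with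
  | one => rw [mul_one, mul_one]
  | mul m x ih =>
    rw [← mul_assoc, ih, ← mul_assoc]
    congr 1
    rename_i i
    have hm : m = 1 ∨ m = Multiplicative.ofAdd 1 := by
      revert m
      decide
    rcases hm with rfl | rfl
    · rw [map_one, mul_one, mul_one]
    · have h1 := Ps_tau (Th k) i
      rw [← Th_mul] at h1
      exact h1

lemma Ps_Th (g : G3) : Ps (Th g) = g := by
  have h := Ps_Th_mul 1 g
  rw [one_mul, Th_one] at h
  rw [h]
  simp [Ps]

lemma Th_phi (h : F2) : ∀ (k : G3) (u : F2), Th k = (u, false) → Th (k * phi h) = (u * h, false) := by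
  induction h using FreeGroup.induction_on with
  | C1 =>
    intro k u hk
    rw [map_one, mul_one, mul_one, hk]
  | of j =>
    intro k u hk
    rw [phi_of, ← mul_assoc, Th_mul, Th_mul, hk, w_succ, w_zero]
    simp
  | inv_of j _ =>
    intro k u hk
    rw [map_inv, phi_of, mul_inv_rev, g3_inv, g3_inv, ← mul_assoc, Th_mul, Th_mul, hk, w_succ, w_zero]
    simp
  | mul x y hx hy =>
    intro k u hk
    rw [map_mul, ← mul_assoc, ← mul_assoc]
    exact hy _ _ (hx _ _ hk)

lemma Th_phi' (h : F2) : Th (phi h) = (h, false) := by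
  have := Th_phi h 1 1 Th_one
  rwa [one_mul, one_mul] at this

/-- the sign -/
def sg (h : F2) (i : Fin 2) : Bool := if (i, false) ∈ h.toWord.getLast? then false else true

/-- a new last letter -/
def ext (h : F2) (i : Fin 2) : F2 := h * FreeGroup.mk [(i, sg h i)]

lemma toWord_ext (h : F2) (i : Fin 2) : (ext h i).toWord = h.toWord ++ [(i, sg h i)] := by
  have h1 : FreeGroup.IsReduced (h.toWord ++ [(i, sg h i)]) := by
    unfold FreeGroup.IsReduced
    rw [List.isChain_append]
    refine ⟨FreeGroup.isReduced_toWord, List.isChain_singleton _, ?_⟩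
    intro x hx y hy hxy
    simp only [List.head?_cons, Option.mem_def, Option.some.injEq] at hy
    subst hy
    obtain ⟨x1, x2⟩ := x
    simp only at hxy ⊢
    subst hxy
    cases x2
    · unfold sg
      rw [if_pos hx]
    · unfold sg
      rw [if_neg]
      intro h2
      rw [Option.mem_def] at hx h2
      rw [hx] at h2
      simp at h2
  have h2 : ext h i = FreeGroup.mk (h.toWord ++ [(i, sg h i)]) := by
    unfold ext
    rw [← FreeGroup.mul_mk, FreeGroup.mk_toWord]
  rw [h2, FreeGroup.toWord_mk]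
  exact h1.reduce_eq

lemma ext_inj {h h' : F2} {i i' : Fin 2} (e : ext h i = ext h' i') : h = h' ∧ i = i' := by
  have h1 := congrArg FreeGroup.toWord e
  rw [toWord_ext, toWord_ext] at h1
  have h2 := List.append_inj' h1 rfl
  refine ⟨FreeGroup.toWord_injective h2.1, ?_⟩
  have h3 := h2.2
  simp only [List.cons.injEq, Prod.mk.injEq, and_true] at h3
  exact h3.1

lemma ext_ball (h : F2) (i : Fin 2) : h⁻¹ * ext h i ∈ ball (Set.range (FreeGroup.of : Fin 2 → F2)) 1 := by
  unfold ext
  rw [inv_mul_cancel_left]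
  cases sg h i
  · have : FreeGroup.mk [(i, false)] = (FreeGroup.of i)⁻¹ := rfl
    rw [this]
    exact ball_inv (ball_gen ⟨_, rfl⟩)
  · exact ball_gen ⟨i, rfl⟩

lemma phi_ball {n : ℕ} {z : F2} (hz : z ∈ ball (Set.range (FreeGroup.of : Fin 2 → F2)) n) :
    phi z ∈ ball (Set.range g3) (2 * n) := by
  obtain ⟨l, h1, h2, rfl⟩ := hz
  induction l generalizing n with
  | nil =>
    rw [List.prod_nil, map_one]
    exact ball_one _
  | cons a l ih =>
    rw [List.length_cons] at h1
    obtain ⟨n, rfl⟩ : ∃ m, n = m + 1 := ⟨n - 1, by omega⟩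
    have h3 := ih (n := n) (by omega) fun x hx => h2 x (List.mem_cons_of_mem _ hx)
    have h5 : ∀ j : Fin 2, phi (FreeGroup.of j) ∈ ball (Set.range g3) 2 := by
      intro j
      rw [phi_of]
      exact ball_mul (m := 1) (n := 1) (ball_gen ⟨_, rfl⟩) (ball_gen ⟨_, rfl⟩)
    have h4 : phi a ∈ ball (Set.range g3) 2 := by
      rcases h2 a List.mem_cons_self with ⟨j, hj⟩ | ⟨j, hj⟩
      · rw [← hj]
        exact h5 j
      · have : a = (FreeGroup.of j)⁻¹ := by rw [hj, inv_inv]
        rw [this, map_inv]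
        exact ball_inv (h5 j)
    rw [List.prod_cons, map_mul]
    exact ball_mono (by omega) (ball_mul h4 h3)

/-- A1. -/
theorem A1_proof : Pool.Agent.H815.QC.S_A1 := by
  have hinj : Function.Injective Th := fun a b h => by
    rw [← Ps_Th a, ← Ps_Th b, h]
  obtain ⟨β, hβ, hR⟩ := Function.Embedding.schroeder_bernstein_of_rel
    (f := fun g : G3 => ext (Th g).1 (if (Th g).2 then 1 else 0)) (g := fun h : F2 => phi h)
    (by
      intro a b h
      obtain ⟨h1, h2⟩ := ext_inj h
      refine hinj (Prod.ext h1 ?_)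
      revert h2
      cases (Th a).2 <;> cases (Th b).2 <;> simp)
    (by
      intro a b h
      have h1 := congrArg Th h
      simp only [Th_phi'] at h1
      exact (Prod.ext_iff.1 h1).1)
    (fun g h => (Th g).1⁻¹ * h ∈ ball (Set.range (FreeGroup.of : Fin 2 → F2)) 1)
    (fun g => ext_ball _ _)
    (fun h => by
      rw [Th_phi', inv_mul_cancel]
      exact ball_one 1)
  obtain ⟨e, he⟩ : ∃ e : G3 ≃ F2, ∀ g, e g = β g := ⟨Equiv.ofBijective β hβ, fun _ => rfl⟩
  have hR' : ∀ g, (Th g).1⁻¹ * e g ∈ ball (Set.range (FreeGroup.of : Fin 2 → F2)) 1 := fun g => by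
    rw [he]
    exact hR g
  refine ⟨e.trans (Equiv.mulLeft (e 1)⁻¹), ?_, 8, ?_, ?_⟩
  · simp
  · intro g i
    have h1 : (Equiv.trans e (Equiv.mulLeft (e 1)⁻¹) g)⁻¹ * Equiv.trans e (Equiv.mulLeft (e 1)⁻¹) (g * g3 i) =
        ((Th g).1⁻¹ * e g)⁻¹ * ((Th g).1⁻¹ * (Th (g * g3 i)).1) *
          ((Th (g * g3 i)).1⁻¹ * e (g * g3 i)) := by
      simp only [Equiv.trans_apply, Equiv.coe_mulLeft]
      group
    rw [h1, Th_mul]
    refine ball_mono (m := 1 + 1 + 1) (by norm_num) (ball_mul (ball_mul (ball_inv (hR' g)) ?_) ?_)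
    · simp only
      rw [inv_mul_cancel_left]
      exact w_ball _ _
    · have := hR' (g * g3 i)
      rwa [Th_mul] at this
  · intro h i
    obtain ⟨k, hk⟩ : ∃ k, k = e 1 * h := ⟨_, rfl⟩
    have h1 : (Equiv.trans e (Equiv.mulLeft (e 1)⁻¹)).symm h = e.symm k := by
      rw [hk]
      simp
    have h2 : (Equiv.trans e (Equiv.mulLeft (e 1)⁻¹)).symm (h * FreeGroup.of i) =
        e.symm (k * FreeGroup.of i) := by
      rw [hk]
      simp [mul_assoc]
    rw [h1, h2]
    have h3 := hR' (e.symm k)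
    have h4 := hR' (e.symm (k * FreeGroup.of i))
    rw [Equiv.apply_symm_apply] at h3 h4
    obtain ⟨g, hg⟩ : ∃ g, g = e.symm k := ⟨_, rfl⟩
    obtain ⟨g', hg'⟩ : ∃ g', g' = e.symm (k * FreeGroup.of i) := ⟨_, rfl⟩
    rw [← hg] at h3 ⊢
    rw [← hg'] at h4 ⊢
    have h5 : (Th g).1⁻¹ * (Th g').1 = ((Th g).1⁻¹ * k) * FreeGroup.of i *
        ((Th g').1⁻¹ * (k * FreeGroup.of i))⁻¹ := by
      group
    have h6 : (Th g).1⁻¹ * (Th g').1 ∈ ball (Set.range (FreeGroup.of : Fin 2 → F2)) 3 := by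
      rw [h5]
      exact ball_mul (m := 2) (n := 1) (ball_mul (m := 1) (n := 1) h3 (ball_gen ⟨i, rfl⟩)) (ball_inv h4)
    have h7 := phi_ball h6
    have h8 : g⁻¹ * g' = (if (Th g).2 then g3 0 else 1)⁻¹ * phi ((Th g).1⁻¹ * (Th g').1) *
        (if (Th g').2 then g3 0 else 1) := by
      conv_lhs => rw [← Ps_Th g, ← Ps_Th g']
      unfold Ps
      rw [map_mul, map_inv]
      group
    have h9 : ∀ ε : Bool, (if ε then g3 0 else 1) ∈ ball (Set.range g3) 1 := by
      intro ε
      cases ε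
      · exact ball_one 1
      · exact ball_gen (Set.mem_range_self 0)
    rw [h8]
    exact ball_mul (m := 7) (n := 1) (ball_mul (m := 1) (n := 6) (ball_inv (h9 _)) h7) (h9 _)

end Pool.Agent.H886.QCA1
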